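import Pool.Agent.T2h09.RF.Top

/-!
Fibrations: the equivalence.
-/

set_option autoImplicit false
set_option linter.overlappingInstances false
set_option linter.unusedSectionVars false
set_option linter.unusedVariables false

open FF Pool.Agent.W602.GT Pool.Agent.W603.LV Pool.Agent.Y172 Pool.Agent.T2h09.ND

namespace Pool.Agent.T2h09.RF

theorem kodGe_zero {k K : Type} [Field k] [Field K] [Algebra k K] {n a : ℕ}
    {Bd : Place k K → Prop} (h : KodGe k K n Bd a) : KodGe k K n Bd 0 := by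
  obtain ⟨N, hN, ω, hω, D, hD, -⟩ := h
  refine ⟨N, hN, fun _ => ω 0, fun _ => hω 0, D, hD, ?_⟩
  rw [algebraicIndependent_empty_type_iff]
  exact (algebraMap k K).injective

theorem kodGe_zero_of {k K : Type} [Field k] [Field K] [Algebra k K] {n m : ℕ} (hm : 0 < m)
    {y : Fin n → K} {F : Fin n → Derivation k K K}
    (hF : ∀ i j, F i (y j) = if i = j then 1 else 0) {t : K} (ht : t ≠ 0)
    (h : ∀ P : Place k K, Divisorial n P → RegAt P (pg y m t)) :
    KodGe k K n (fun _ => False) 0 := by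
  refine ⟨m, hm, fun _ => pg y m t, fun _ => ⟨pg_pluri y m t,
    fun P hP D hD => h P hP D fun i => derReg_of_log (hD i), fun P hP _ => h P hP⟩, F, ?_, ?_⟩
  · change pg y m t F ≠ 0
    rw [pg_self hF]
    exact ht
  · rw [algebraicIndependent_empty_type_iff]
    exact (algebraMap k K).injective

variable {E L M K : Type} [Field E] [Field L] [Field M] [Field K] [Algebra ℂ E] [Algebra ℂ L]
  [Algebra ℂ M] [Algebra ℂ K] [Algebra E M] [Algebra E K] [Algebra L M] [Algebra M K]
  [IsScalarTower ℂ E M] [IsScalarTower ℂ E K] [IsScalarTower ℂ L M] [IsScalarTower ℂ M K]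
  [IsScalarTower E M K] [FiniteDimensional L M] [FiniteDimensional M K]
  [Algebra.EssFiniteType ℂ K] {p q : ℕ}

theorem trdeg_rel (hE : Algebra.trdeg ℂ E = p) (hM : Algebra.trdeg ℂ M = (p + q : ℕ)) :
    Algebra.trdeg E M = q := by
  have h1 := _root_.trdeg_add_eq ℂ E (A := M)
  rw [hE, hM] at h1
  have h2 : Algebra.trdeg E M < Cardinal.aleph0 := by
    refine lt_of_le_of_lt ?_ (Cardinal.natCast_lt_aleph0 (n := p + q))
    rw [← h1]
    exact self_le_add_left _ _
  obtain ⟨r, hr⟩ := Cardinal.lt_aleph0.1 h2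
  rw [hr] at h1 ⊢
  have h3 : p + r = p + q := by exact_mod_cast h1
  have h4 : r = q := by omega
  rw [h4]

/-- forms on `W` restrict to the generic fibre of the image -/
theorem kod_fibre (hE : Algebra.trdeg ℂ E = p) (hK : Algebra.trdeg ℂ K = (p + (q + 1) : ℕ))
    (h : KodGe ℂ L (p + (q + 1)) (fun _ => False) 0) : KodGe E M (q + 1) (fun _ => False) 0 := by
  classical
  have hessM : Algebra.EssFiniteType ℂ M := ess_below (K := K)
  have hessL : Algebra.EssFiniteType ℂ L := ess_below (K := M)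
  have hM : Algebra.trdeg ℂ M = (p + (q + 1) : ℕ) := trdeg_below (K := K) hK
  have hL : Algebra.trdeg ℂ L = (p + (q + 1) : ℕ) := trdeg_below (K := M) hM
  have hessEM : Algebra.EssFiniteType E M := Algebra.EssFiniteType.of_comp ℂ E M
  have hcE : CharZero E := charZero_of_injective_algebraMap (algebraMap ℂ E).injective
  have hME : Algebra.trdeg E M = (q + 1 : ℕ) := trdeg_rel hE hM
  obtain ⟨x, hx⟩ := basis_of_trdeg hE
  obtain ⟨y, hy⟩ := basis_of_trdeg hME
  obtain ⟨v, hv⟩ := basis_of_trdeg hL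
  have hz := zz_basis hx hy
  obtain ⟨N, hN, ω, hω, D, hD, -⟩ := h
  obtain ⟨V, hV⟩ := dual_of hv
  obtain ⟨Z, hZ⟩ := dual_of hz
  obtain ⟨F, hF⟩ := dual_of hy
  obtain ⟨t, ht⟩ : ∃ t, t = ω 0 V := ⟨_, rfl⟩
  have hωt : ω 0 = pg v N t := by
    funext D
    rw [pluri_coord hv hV (hω 0).1 D, ht]
    rfl
  have ht0 : t ≠ 0 := by
    intro h0
    apply hD
    rw [hωt, h0, pg, mul_zero]
  have hreg : ∀ P : Place ℂ L, Divisorial (p + (q + 1)) P → RegAt P (pg v N t) := by
    intro P hP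
    rw [← hωt]
    exact (hω 0).2.2 P hP not_false
  have hvM : IsTranscendenceBasis ℂ (fun j => algebraMap L M (v j)) := hv.algebraMap_comp
  obtain ⟨VM, hVM⟩ := dual_of hvM
  obtain ⟨W, hW⟩ : ∃ W, W = pg (k := ℂ) (fun j => algebraMap L M (v j)) N (algebraMap L M t) :=
    ⟨_, rfl⟩
  obtain ⟨c, hc⟩ : ∃ c, c = W Z := ⟨_, rfl⟩
  have hWp : IsPluri N W := by
    rw [hW]
    exact pg_pluri _ _ _
  have hWc : W = pg (zz x y) N c := by
    funext D
    rw [pluri_coord hz hZ hWp D, hc]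
    rfl
  have hc0 : c ≠ 0 := by
    intro h0
    have h1 : W VM = 0 := by rw [hWc, h0, pg, mul_zero]
    rw [hW, pg_self hVM, map_eq_zero] at h1
    exact ht0 h1
  refine kodGe_zero_of hN hF hc0 fun P hP => rel_reg hx hE hME hy P hP ?_
  rw [← hWc, hW]
  exact pull_rel hL hv hreg (toC P) ((div_iff P hE (by omega)).2 hP)

end Pool.Agent.T2h09.RF
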