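import Pool.Agent.T2h09.RF.Plc
import Pool.Agent.W602.GT.Sys
import Pool.Agent.N131.MV.Plc
import Pool.Agent.Y172.Cov3

/-!
Relative forms and forms over the constants.
-/

set_option autoImplicit false
set_option linter.overlappingInstances false
set_option linter.unusedSectionVars false

open FF Pool.Agent.W602.GT Pool.Agent.W603.LV

namespace Pool.Agent.T2h09.RF

section

variable {k K : Type} [Field k] [Field K] [Algebra k K] {n : ℕ}

/-- the form of weight `M` with the value `t` in the coordinates `y` -/
noncomputable def pg (y : Fin n → K) (M : ℕ) (t : K) (D : Fin n → Derivation k K K) : K :=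
  (Matrix.of fun i j => D i (y j) : Matrix (Fin n) (Fin n) K).det ^ M * t

theorem pg_pluri (y : Fin n → K) (M : ℕ) (t : K) : IsPluri M (pg (k := k) y M t) := by
  intro A D
  have e1 : (Matrix.of fun a b => (∑ j, A a j • D j) (y b)) =
      A * Matrix.of fun a b => D a (y b) := by
    ext a b
    rw [Matrix.of_apply, Matrix.mul_apply, Pool.Agent.Y172.sum_smul_apply]
    rfl
  change (Matrix.of fun a b => (∑ j, A a j • D j) (y b)).det ^ M * _ = _
  rw [e1, Matrix.det_mul, mul_pow, mul_assoc]
  rfl

theorem pg_self {y : Fin n → K} {E : Fin n → Derivation k K K}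
    (hE : ∀ i j, E i (y j) = if i = j then 1 else 0) (M : ℕ) (t : K) : pg y M t E = t := by
  have h1 : (Matrix.of fun i j => E i (y j) : Matrix (Fin n) (Fin n) K) = 1 := by
    ext i j
    rw [Matrix.of_apply, hE, Matrix.one_apply]
  rw [pg, h1, Matrix.det_one, one_pow, one_mul]

theorem derReg_of_log {P : Place k K} {D : Derivation k K K} (h : DerLog P D) : DerReg P D := by
  intro f hf
  by_cases hf0 : f = 0
  · rw [hf0, map_zero]
    exact Or.inl rfl
  have h1 := P.reg_mul (h f) hf
  rwa [div_mul_cancel₀ _ hf0] at h1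

theorem dual_of [CharZero k] {y : Fin n → K} (hy : IsTranscendenceBasis k y) :
    ∃ E : Fin n → Derivation k K K, ∀ i j, E i (y j) = if i = j then 1 else 0 := by
  obtain ⟨D, hD⟩ := exists_dual hy
  refine ⟨D, fun i j => ?_⟩
  have h1 := congrFun (congrFun hD i) j
  rw [Matrix.of_apply, Matrix.one_apply] at h1
  exact h1

end

section det

variable {N : Type} [Field N] {a b : ℕ}

theorem det_append (A : Matrix (Fin (a + b)) (Fin (a + b)) N)
    (h1 : ∀ i j : Fin a, A (Fin.castAdd b i) (Fin.castAdd b j) = if i = j then 1 else 0)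
    (h2 : ∀ (i : Fin b) (j : Fin a), A (Fin.natAdd a i) (Fin.castAdd b j) = 0) :
    A.det = (Matrix.of fun i j : Fin b => A (Fin.natAdd a i) (Fin.natAdd a j)).det := by
  have h3 : A.submatrix finSumFinEquiv finSumFinEquiv =
      Matrix.fromBlocks 1 (Matrix.of fun i j => A (Fin.castAdd b i) (Fin.natAdd a j)) 0
        (Matrix.of fun i j => A (Fin.natAdd a i) (Fin.natAdd a j)) := by
    ext (i | i) (j | j)
    · rw [Matrix.fromBlocks_apply₁₁, Matrix.submatrix_apply, Matrix.one_apply]
      exact h1 i j
    · rw [Matrix.fromBlocks_apply₁₂, Matrix.submatrix_apply]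
      rfl
    · rw [Matrix.fromBlocks_apply₂₁, Matrix.submatrix_apply]
      exact h2 i j
    · rw [Matrix.fromBlocks_apply₂₂, Matrix.submatrix_apply]
      rfl
  rw [← Matrix.det_submatrix_equiv_self finSumFinEquiv A, h3, Matrix.det_fromBlocks_zero₂₁,
    Matrix.det_one, one_mul]

end det

section

variable {E N : Type} [Field E] [Field N] [Algebra ℂ E] [Algebra ℂ N] [Algebra E N]
  [IsScalarTower ℂ E N] {p q : ℕ}

/-- coordinates on the base and on the fibres -/
def zz (x : Fin p → E) (y : Fin q → N) : Fin (p + q) → N :=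
  Fin.append (fun i => algebraMap E N (x i)) y

theorem zz_left (x : Fin p → E) (y : Fin q → N) (i : Fin p) :
    zz x y (Fin.castAdd q i) = algebraMap E N (x i) := Fin.append_left _ _ i

theorem zz_right (x : Fin p → E) (y : Fin q → N) (i : Fin q) :
    zz x y (Fin.natAdd p i) = y i := Fin.append_right _ _ i

theorem zz_basis {x : Fin p → E} (hx : IsTranscendenceBasis ℂ x) {y : Fin q → N}
    (hy : IsTranscendenceBasis E y) : IsTranscendenceBasis ℂ (zz x y) := by
  have h1 := hx.sumElim_comp hy
  let e : Fin (p + q) ≃ Fin q ⊕ Fin p := finSumFinEquiv.symm.trans (Equiv.sumComm _ _)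
  have h2 := h1.comp_equiv e
  have h3 : (Sum.elim y (algebraMap E N ∘ x)) ∘ e = zz x y := by
    funext i
    rw [Function.comp_apply]
    induction i using Fin.addCases with
    | left i =>
      have h4 : e (Fin.castAdd q i) = Sum.inr i := by
        simp [e]
      rw [h4, zz_left]
      rfl
    | right i =>
      have h4 : e (Fin.natAdd p i) = Sum.inl i := by
        simp [e]
      rw [h4, zz_right]
      rfl
  rwa [h3] at h2

/-- a derivation over `E` as a derivation over `ℂ` -/
def dC (D : Derivation E N N) : Derivation ℂ N N := D.restrictScalars ℂ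

theorem dC_apply (D : Derivation E N N) (f : N) : dC D f = D f := rfl

theorem det_rel {x : Fin p → E} {y : Fin q → N} {δ : Fin p → Derivation ℂ N N}
    (hδ : ∀ i j, δ i (algebraMap E N (x j)) = if i = j then 1 else 0)
    (D : Fin q → Derivation E N N) :
    (Matrix.of fun i j => (Fin.append δ (fun i => dC (D i)) : Fin (p + q) → Derivation ℂ N N) i
      (zz x y j) : Matrix (Fin (p + q)) (Fin (p + q)) N).det =
      (Matrix.of fun i j => D i (y j) : Matrix (Fin q) (Fin q) N).det := by
  rw [det_append]
  · congr 1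
    ext i j
    rw [Matrix.of_apply, Matrix.of_apply, Matrix.of_apply, Fin.append_right, zz_right]
    rfl
  · intro i j
    rw [Matrix.of_apply, Fin.append_left, zz_left]
    exact hδ i j
  · intro i j
    rw [Matrix.of_apply, Fin.append_right, zz_left, dC_apply, Derivation.map_algebraMap]

/-- vector fields which are regular along a horizontal divisor -/
theorem exists_hor [Algebra.EssFiniteType E N] {x : Fin p → E} (hx : IsTranscendenceBasis ℂ x)
    (hN : Algebra.trdeg E N = (q + 1 : ℕ)) (Q : Place E N) (hQ : Divisorial (q + 1) Q) :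
    ∃ δ : Fin p → Derivation ℂ N N, (∀ i j, δ i (algebraMap E N (x j)) = if i = j then 1 else 0) ∧
      ∀ i, DerReg (toC Q) (δ i) := by
  classical
  have hcE : CharZero E := charZero_of_injective_algebraMap (algebraMap ℂ E).injective
  obtain ⟨s, hs⟩ := hQ
  have hs' : Pool.Agent.N131.MV.Ri Q (s : Fin q → N) := hs
  obtain ⟨t, ht0, ht⟩ := Q.surj
  have hb := hs'.basis hN ht
  have hb' := hx.sumElim_comp hb
  obtain ⟨E', hE'⟩ := dual_of hx
  have h1 : ∀ i : Fin p, ∃ δ : Derivation ℂ N N,
      (∀ j, δ (algebraMap E N (x j)) = if i = j then 1 else 0) ∧ DerReg (toC Q) δ := by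
    intro i
    obtain ⟨δ, hδ⟩ := exists_der _ hb' (Sum.elim (fun _ => (0 : N)) fun j => if i = j then 1 else 0)
    have hx' : ∀ j, δ (algebraMap E N (x j)) = if i = j then 1 else 0 := fun j => hδ (Sum.inr j)
    have hc : ∀ c : E, δ (algebraMap E N c) = algebraMap E N (E' i c) := by
      intro c
      rw [Pool.Agent.W73.PG.PULL.chain x hx E' hE' δ c]
      simp only [hx', ite_mul, one_mul, zero_mul, Finset.sum_ite_eq, Finset.mem_univ, if_true]
    refine ⟨δ, hx', ?_⟩
    have h2 := Pool.Agent.N131.MV.der_regular (P := Q) (δ := δ) hN hs' (fun c => by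
      rw [hc]
      exact Q.reg_const _) (fun j => by
      have h3 : δ (s j) = 0 := hδ (Sum.inl (some j))
      rw [h3]
      exact Q.reg_zero) ht (by
      have h3 : δ t = 0 := hδ (Sum.inl none)
      rw [h3]
      exact Q.reg_zero)
    exact h2
  choose δ hδ1 hδ2 using h1
  exact ⟨δ, hδ1, hδ2⟩

/-- **Restriction of forms to the generic fibre.** -/
theorem rel_reg [Algebra.EssFiniteType E N] {x : Fin p → E} (hx : IsTranscendenceBasis ℂ x)
    (hp : Algebra.trdeg ℂ E = p) (hN : Algebra.trdeg E N = (q + 1 : ℕ)) {y : Fin (q + 1) → N}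
    (hy : IsTranscendenceBasis E y) {m : ℕ} {t : N} (Q : Place E N) (hQ : Divisorial (q + 1) Q)
    (hreg : RegAt (toC Q) (pg (k := ℂ) (zz x y) m t)) : RegAt Q (pg y m t) := by
  intro D hD
  obtain ⟨δ, hδ, hδr⟩ := exists_hor hx hN Q hQ
  have h1 := hreg (Fin.append δ fun i => dC (D i)) (fun i => by
    induction i using Fin.addCases with
    | left i => rw [Fin.append_left]; exact hδr i
    | right i => rw [Fin.append_right]; exact hD i)
  unfold pg at h1
  rw [det_rel hδ] at h1
  exact h1

end

end Pool.Agent.T2h09.RF
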