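import Pool.Agent.Helper386.D5V.Helper386_FF_Place
import Pool.Agent.W602.GT.Defs
import Pool.Agent.Y721.NT.Vert

/-!
Places over a subfield of the field of functions.
-/

set_option autoImplicit false
set_option linter.overlappingInstances false
set_option linter.unusedSectionVars false

open FF MvPolynomial Pool.Agent.W602.GT Pool.Agent.Y721.NT

namespace Pool.Agent.T2h09.RF

section

variable {E N : Type} [Field E] [Field N] [Algebra ℂ E] [Algebra ℂ N] [Algebra E N]
  [IsScalarTower ℂ E N]

/-- the place over `ℂ` of a place over `E` -/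
def toC (Q : Place E N) : Place ℂ N where
  ord := Q.ord
  ord_zero := Q.ord_zero
  ord_mul := Q.ord_mul
  ord_add := Q.ord_add
  ord_const := by
    intro c hc
    rw [IsScalarTower.algebraMap_apply ℂ E N]
    exact Q.ord_const (by simpa using hc)
  surj := Q.surj

/-- a place which is trivial on `E` is a place over `E` -/
theorem exists_toC (P : Place ℂ N) (h : ∀ f : E, P.ord (algebraMap E N f) = 0) :
    ∃ Q : Place E N, toC Q = P :=
  ⟨{ ord := P.ord
     ord_zero := P.ord_zero
     ord_mul := P.ord_mul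
     ord_add := P.ord_add
     ord_const := fun {c} _ => h c
     surj := P.surj }, rfl⟩

variable (Q : Place E N)

/-- residues over `ℂ` -/
theorem res_iff (m : ℕ) :
    letI : Algebra ℂ Q.RF := ((algebraMap E Q.RF).comp (algebraMap ℂ E)).toAlgebra
    (∃ u : Fin m → N, ∀ F : MvPolynomial (Fin m) ℂ, F ≠ 0 →
      aeval u F ≠ 0 ∧ Q.ord (aeval u F) = 0) ↔ (m : Cardinal) ≤ Algebra.trdeg ℂ Q.RF := by
  letI : Algebra ℂ Q.RF := ((algebraMap E Q.RF).comp (algebraMap ℂ E)).toAlgebra
  have hst : IsScalarTower ℂ E Q.RF := IsScalarTower.of_algebraMap_eq fun _ => rfl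
  have hmapN : ∀ (u : Fin m → N) (F : MvPolynomial (Fin m) ℂ),
      aeval u F = aeval u (MvPolynomial.map (algebraMap ℂ E) F) := by
    intro u F
    rw [MvPolynomial.aeval_map_algebraMap]
  have hmapR : ∀ (u : Fin m → Q.RF) (F : MvPolynomial (Fin m) ℂ),
      aeval u F = aeval u (MvPolynomial.map (algebraMap ℂ E) F) := by
    intro u F
    rw [MvPolynomial.aeval_map_algebraMap]
  constructor
  · rintro ⟨u, hu⟩
    have hreg : ∀ i, Q.Reg (u i) := by
      intro i
      have h1 := (hu (X i) (X_ne_zero i)).2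
      rw [aeval_X] at h1
      exact Or.inr h1.ge
    have hind : AlgebraicIndependent ℂ (fun i => Q.red (u i)) := by
      rw [algebraicIndependent_iff]
      intro G hG
      by_contra hG0
      obtain ⟨h1, h2⟩ := hu G hG0
      have h3 := (red_aeval Q u hreg (MvPolynomial.map (algebraMap ℂ E) G)).2
      rw [← hmapR, hG, ← hmapN] at h3
      exact Q.red_ne_zero h1 h2 h3
    have h4 := hind.cardinalMk_le_trdeg
    rwa [Cardinal.mk_fin] at h4
  · intro hle
    obtain ⟨s, hs⟩ := exists_isTranscendenceBasis ℂ Q.RF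
    rw [← hs.cardinalMk_eq_trdeg, ← Cardinal.mk_fin, Cardinal.le_def] at hle
    obtain ⟨f⟩ := hle
    have hm : AlgebraicIndependent ℂ (fun i => ((f i : s) : Q.RF)) := hs.1.comp f f.injective
    choose x hx hxm using fun i => Q.red_surjective ((f i : s) : Q.RF)
    refine ⟨x, fun G hG => ?_⟩
    obtain ⟨h3, h4⟩ := red_aeval Q x hx (MvPolynomial.map (algebraMap ℂ E) G)
    rw [← hmapN] at h3 h4
    rw [← hmapR] at h4
    have h5 : aeval (fun i => Q.red (x i)) G ≠ 0 := by
      intro h0
      apply hG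
      have h6 : (fun i => Q.red (x i)) = fun i => ((f i : s) : Q.RF) := funext hxm
      rw [h6] at h0
      exact (injective_iff_map_eq_zero _).1 hm G h0
    rw [← h4, Ne, Q.red_eq_zero_iff h3] at h5
    push Not at h5
    refine ⟨h5.1, ?_⟩
    have := (Q.reg_iff h5.1).1 h3
    omega

theorem res_iff' {k K : Type} [Field k] [Field K] [Algebra k K] (Q : Place k K) (m : ℕ) :
    (∃ u : Fin m → K, ∀ F : MvPolynomial (Fin m) k, F ≠ 0 →
      aeval u F ≠ 0 ∧ Q.ord (aeval u F) = 0) ↔ (m : Cardinal) ≤ Algebra.trdeg k Q.RF := by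
  constructor
  · rintro ⟨u, hu⟩
    have hreg : ∀ i, Q.Reg (u i) := by
      intro i
      have h1 := (hu (X i) (X_ne_zero i)).2
      rw [aeval_X] at h1
      exact Or.inr h1.ge
    have hind : AlgebraicIndependent k (fun i => Q.red (u i)) := by
      rw [algebraicIndependent_iff]
      intro G hG
      by_contra hG0
      obtain ⟨h1, h2⟩ := hu G hG0
      have h3 := (red_aeval Q u hreg G).2
      rw [hG] at h3
      exact Q.red_ne_zero h1 h2 h3
    have h4 := hind.cardinalMk_le_trdeg
    rwa [Cardinal.mk_fin] at h4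
  · intro hle
    obtain ⟨s, hs⟩ := exists_isTranscendenceBasis k Q.RF
    rw [← hs.cardinalMk_eq_trdeg, ← Cardinal.mk_fin, Cardinal.le_def] at hle
    obtain ⟨f⟩ := hle
    have hm : AlgebraicIndependent k (fun i => ((f i : s) : Q.RF)) := hs.1.comp f f.injective
    choose x hx hxm using fun i => Q.red_surjective ((f i : s) : Q.RF)
    refine ⟨x, fun G hG => ?_⟩
    obtain ⟨h3, h4⟩ := red_aeval Q x hx G
    have h5 : aeval (fun i => Q.red (x i)) G ≠ 0 := by
      intro h0
      apply hG
      have h6 : (fun i => Q.red (x i)) = fun i => ((f i : s) : Q.RF) := funext hxm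
      rw [h6] at h0
      exact (injective_iff_map_eq_zero _).1 hm G h0
    rw [← h4, Ne, Q.red_eq_zero_iff h3] at h5
    push Not at h5
    refine ⟨h5.1, ?_⟩
    have := (Q.reg_iff h5.1).1 h3
    omega

/-- divisorial places over `E` and over `ℂ` -/
theorem div_iff {p q : ℕ} (hp : Algebra.trdeg ℂ E = p) (hq : 1 ≤ q) :
    Divisorial (p + q) (toC Q) ↔ Divisorial q Q := by
  letI : Algebra ℂ Q.RF := ((algebraMap E Q.RF).comp (algebraMap ℂ E)).toAlgebra
  have hst : IsScalarTower ℂ E Q.RF := IsScalarTower.of_algebraMap_eq fun _ => rfl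
  have h1 := res_iff Q (p + q - 1)
  have h2 := res_iff' Q (q - 1)
  have h3 : Algebra.trdeg ℂ E + Algebra.trdeg E Q.RF = Algebra.trdeg ℂ Q.RF :=
    _root_.trdeg_add_eq ℂ E (A := Q.RF)
  have h4 : ((p + q - 1 : ℕ) : Cardinal) ≤ Algebra.trdeg ℂ Q.RF ↔
      ((q - 1 : ℕ) : Cardinal) ≤ Algebra.trdeg E Q.RF := by
    rw [← h3, hp]
    have h5 : p + q - 1 = p + (q - 1) := by omega
    rw [h5, Nat.cast_add]
    constructor
    · intro h
      by_contra hcon
      rw [not_le] at hcon
      obtain ⟨r, hr⟩ := Cardinal.lt_aleph0.1 (hcon.trans Cardinal.natCast_lt_aleph0)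
      rw [hr] at h hcon
      have h6 : q - 1 ≤ r := by
        have : p + (q - 1) ≤ p + r := by exact_mod_cast h
        omega
      have h7 : r < q - 1 := by exact_mod_cast hcon
      omega
    · intro h
      gcongr
  exact h1.trans (h4.trans h2.symm)

end

end Pool.Agent.T2h09.RF
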