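import Pool.Agent.T2h09.RF.Frame
import Pool.Agent.W602.GT.KDefs

/-!
Forms on the image of a fibration: regularity along horizontal and vertical divisors.
-/

set_option autoImplicit false
set_option linter.overlappingInstances false
set_option linter.unusedSectionVars false
set_option linter.unusedVariables false

open FF Pool.Agent.W602.GT Pool.Agent.W603.LV Pool.Agent.Y172

namespace Pool.Agent.T2h09.RF

section pull

variable {k M K : Type} [Field k] [CharZero k] [Field M] [Field K] [Algebra k M] [Algebra k K]
  [Algebra M K] [IsScalarTower k M K] [FiniteDimensional M K] {q : ℕ}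

/-- pull-back of regular forms to finite extensions -/
theorem pull_rel [Algebra.EssFiniteType k M] (hM : Algebra.trdeg k M = q) {y : Fin q → M}
    (hy : IsTranscendenceBasis k y) {m : ℕ} {t : M}
    (hreg : ∀ P : Place k M, Divisorial q P → RegAt P (pg y m t)) (Q : Place k K)
    (hQ : Divisorial q Q) :
    RegAt Q (pg (fun j => algebraMap M K (y j)) m (algebraMap M K t)) := by
  obtain ⟨e, P, hP⟩ := Pool.Agent.W73.PG.PULL.exists_over' (K := M) Q
  have hPd : Divisorial q P := divisorial_down hP hQ
  obtain ⟨yP, EP, i0, hl⟩ := exists_loc hM hPd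
  obtain ⟨F, hF⟩ := dual_of hy
  intro D hD
  have h1 := Pool.Agent.W73.PG.PULL.form_eq (L := K) y yP hy hl.bas F EP hF hl.dual
    (m := m) (pg y m t) (pg_pluri y m t) D
  rw [pg_self hF] at h1
  change Q.Reg ((Matrix.of fun i j => D i (algebraMap M K (y j)) :
    Matrix (Fin q) (Fin q) K).det ^ m * algebraMap M K t)
  rw [h1]
  refine Q.reg_mul ?_ ?_
  · have h9 : Ge Q 0 (Matrix.of fun a c => D a (algebraMap M K (yP c)) :
        Matrix (Fin q) (Fin q) K).det :=
      Pool.Agent.W619.PQ.ge_det Q _ fun a b => hD a _ (hP.reg.2 (hl.reg b))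
    have h10 := h9.pow m
    rw [mul_zero] at h10
    exact h10
  · exact hP.reg.2 (hreg P hPd EP hl.pres)

end pull

section ratio

variable {k K : Type} [Field k] [CharZero k] [Field K] [Algebra k K] {q : ℕ}

/-- ratios of forms, if the Kodaira dimension is at most zero -/
theorem ratio_mem (hκ : ¬ KodGe k K q (fun _ => False) 1)
    (hk : ∀ z : K, IsAlgebraic k z → z ∈ Set.range (algebraMap k K)) {y : Fin q → K}
    (hy : IsTranscendenceBasis k y) {N : ℕ} (hN : 0 < N) {t0 t1 : K} (ht0 : t0 ≠ 0)
    (h0 : ∀ Q : Place k K, Divisorial q Q → RegAt Q (pg y N t0))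
    (h1 : ∀ Q : Place k K, Divisorial q Q → RegAt Q (pg y N t1)) :
    ∃ g : k, t1 = algebraMap k K g * t0 := by
  by_cases halg : IsAlgebraic k (t1 / t0)
  · obtain ⟨g, hg⟩ := hk _ halg
    exact ⟨g, by rw [hg, div_mul_cancel₀ _ ht0]⟩
  · exfalso
    apply hκ
    obtain ⟨F, hF⟩ := dual_of hy
    have h2 : ∀ t : K, (∀ Q : Place k K, Divisorial q Q → RegAt Q (pg y N t)) →
        LogSec k K q N (fun _ => False) (pg y N t) := fun t ht =>
      ⟨pg_pluri y N t, fun P hP D hD => ht P hP D fun i => derReg_of_log (hD i),
        fun P hP _ => ht P hP⟩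
    refine ⟨N, hN, ![pg y N t0, pg y N t1], fun j => ?_, F, ?_, ?_⟩
    · fin_cases j
      · exact h2 t0 h0
      · exact h2 t1 h1
    · change pg y N t0 F ≠ 0
      rw [pg_self hF]
      exact ht0
    · rw [algebraicIndependent_unique_type_iff]
      change Transcendental k (pg y N t1 F / pg y N t0 F)
      rw [pg_self hF, pg_self hF]
      exact halg

end ratio

section hor

variable {E M : Type} [Field E] [Field M] [Algebra ℂ E] [Algebra ℂ M] [Algebra E M]
  [IsScalarTower ℂ E M] {p q : ℕ}

theorem hor_reg [Algebra.EssFiniteType E M] {x : Fin p → E} (hx : IsTranscendenceBasis ℂ x)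
    (hM : Algebra.trdeg E M = q) {y : Fin q → M}
    (hy : IsTranscendenceBasis E y) {m : ℕ} {t : M} (P : Place E M) (hP : Divisorial q P)
    (hreg : RegAt P (pg y m t)) : RegAt (toC P) (pg (k := ℂ) (zz x y) m t) := by
  have hcE : CharZero E := charZero_of_injective_algebraMap (algebraMap ℂ E).injective
  have hcM : CharZero M := charZero_of_injective_algebraMap (algebraMap ℂ M).injective
  obtain ⟨yP, EP, i0, hl⟩ := exists_loc hM hP
  have hz := zz_basis hx hy
  have hzP := zz_basis hx hl.bas
  obtain ⟨F, hF⟩ := dual_of hz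
  obtain ⟨G, hG⟩ := dual_of hzP
  let δ : Fin p → Derivation ℂ M M := fun i => G (Fin.castAdd q i)
  have hδ : ∀ i j, δ i (algebraMap E M (x j)) = if i = j then 1 else 0 := by
    intro i j
    have h1 := hG (Fin.castAdd q i) (Fin.castAdd q j)
    rw [zz_left] at h1
    change G (Fin.castAdd q i) (algebraMap E M (x j)) = _
    rw [h1]
    simp
  have hδy : ∀ i j, δ i (yP j) = 0 := by
    intro i j
    have h1 := hG (Fin.castAdd q i) (Fin.natAdd p j)
    rw [zz_right] at h1
    change G (Fin.castAdd q i) (yP j) = _
    rw [h1, if_neg]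
    intro h2
    have h3 := congrArg Fin.val h2
    simp only [Fin.val_castAdd, Fin.val_natAdd] at h3
    have := i.2
    omega
  let G' : Fin (p + q) → Derivation ℂ M M := Fin.append δ fun i => dC (EP i)
  have hG' : ∀ i j, G' i (zz x yP j) = if i = j then 1 else 0 := by
    intro i j
    induction i using Fin.addCases with
    | left i =>
      induction j using Fin.addCases with
      | left j =>
        change (Fin.append δ fun i => dC (EP i)) (Fin.castAdd q i) _ = _
        rw [Fin.append_left, zz_left, hδ]
        simp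
      | right j =>
        change (Fin.append δ fun i => dC (EP i)) (Fin.castAdd q i) _ = _
        rw [Fin.append_left, zz_right, hδy, if_neg]
        intro h2
        have h3 := congrArg Fin.val h2
        simp only [Fin.val_castAdd, Fin.val_natAdd] at h3
        have := i.2
        omega
    | right i =>
      induction j using Fin.addCases with
      | left j =>
        change (Fin.append δ fun i => dC (EP i)) (Fin.natAdd p i) _ = _
        rw [Fin.append_right, zz_left, dC_apply, Derivation.map_algebraMap, if_neg]
        intro h2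
        have h3 := congrArg Fin.val h2
        simp only [Fin.val_castAdd, Fin.val_natAdd] at h3
        have := j.2
        omega
      | right j =>
        change (Fin.append δ fun i => dC (EP i)) (Fin.natAdd p i) _ = _
        rw [Fin.append_right, zz_right, dC_apply, hl.dual]
        simp
  intro D hD
  have h1 := Pool.Agent.W73.PG.PULL.form_eq (L := M) (zz x y) (zz x yP) hz hzP F G' hF hG'
    (m := m) (pg (zz x y) m t) (pg_pluri (zz x y) m t) D
  rw [pg_self hF] at h1
  simp only [Algebra.algebraMap_self, RingHom.id_apply] at h1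
  change (toC P).Reg ((Matrix.of fun i j => D i (zz x y j) :
    Matrix (Fin (p + q)) (Fin (p + q)) M).det ^ m * t)
  rw [h1]
  refine (toC P).reg_mul ?_ ?_
  · have h9 : Ge (toC P) 0 (Matrix.of fun a c => D a (zz x yP c) :
        Matrix (Fin (p + q)) (Fin (p + q)) M).det :=
      Pool.Agent.W619.PQ.ge_det (toC P) _ fun a b => hD a _ (by
        induction b using Fin.addCases with
        | left b =>
          rw [zz_left]
          exact P.reg_const _
        | right b =>
          rw [zz_right]
          exact hl.reg b)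
    have h10 := h9.pow m
    rw [mul_zero] at h10
    exact h10
  · have h2 : pg (zz x y) m t G' = pg y m t EP := by
      unfold pg
      rw [det_rel hδ]
    rw [h2]
    exact hreg EP hl.pres

end hor

section ver

variable {M K : Type} [Field M] [Field K] [Algebra ℂ M] [Algebra ℂ K]
  [Algebra M K] [IsScalarTower ℂ M K] [FiniteDimensional M K] {n : ℕ}

/-- **Regularity along vertical divisors.** -/
theorem ver_reg [Algebra.EssFiniteType ℂ M] [Algebra.EssFiniteType ℂ K]
    (hM : Algebra.trdeg ℂ M = n) {z : Fin n → M}
    (hz : IsTranscendenceBasis ℂ z) {N : ℕ} {t : M} (P : Place ℂ M) (hP : Divisorial n P)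
    (Q : Place ℂ K) (e : ℕ) (hQ : Over Q P e)
    (hreg : ∀ D : Fin n → Derivation ℂ K K, (∀ i, DerReg Q (D i)) →
      Ge Q (N * ((e : ℤ) - 1)) (pg (fun j => algebraMap M K (z j)) N (algebraMap M K t) D)) :
    RegAt P (pg z N t) := by
  have hK : Algebra.trdeg ℂ K = n := trdeg_up (K := M) hM
  have hQd : Divisorial n Q := divisorial_up hQ hP
  obtain ⟨yP, EP, i0, hl⟩ := exists_loc hM hP
  choose EP' hEP' using fun i => exists_lift (L := K) hM (EP i)
  obtain ⟨F, hF⟩ := dual_of hz
  have hzK : IsTranscendenceBasis ℂ (fun j => algebraMap M K (z j)) := hz.algebraMap_comp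
  have hW := pg_pluri (k := ℂ) (fun j => algebraMap M K (z j)) N (algebraMap M K t)
  have h1 := down_ge hK hQ hQd hl hEP' hW (c := ((N * ((e : ℤ) - 1) : ℤ) : ℝ)) (fun G hG => by
    rcases hreg G hG with h | h
    · exact Or.inl h
    · exact Or.inr (by exact_mod_cast h))
  have h2 : pg (fun j => algebraMap M K (z j)) N (algebraMap M K t) EP' =
      algebraMap M K (pg z N t EP) := by
    unfold pg
    rw [map_mul, map_pow, RingHom.map_det]
    congr 3
    ext i j
    rw [Matrix.of_apply, RingHom.mapMatrix_apply, Matrix.map_apply, Matrix.of_apply, hEP']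
  have h3 : P.Reg (pg z N t EP) := by
    rcases h1 with h1 | h1
    · left
      rw [h2] at h1
      exact (map_eq_zero _).1 h1
    · right
      rw [h2, hQ.2] at h1
      have h4 : (0 : ℝ) ≤ ((e : ℤ) : ℝ) * ((P.ord (pg z N t EP) : ℤ) : ℝ) := by
        push_cast at h1
        push_cast
        linarith
      have h5 : (0 : ℤ) ≤ (e : ℤ) * P.ord (pg z N t EP) := by exact_mod_cast h4
      have h6 : (0 : ℤ) < e := by exact_mod_cast hQ.1
      exact nonneg_of_mul_nonneg_right h5 h6
  intro D hD
  have h4 := Pool.Agent.W73.PG.PULL.form_eq (L := M) z yP hz hl.bas F EP hF hl.dual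
    (m := N) (pg z N t) (pg_pluri z N t) D
  rw [pg_self hF] at h4
  simp only [Algebra.algebraMap_self, RingHom.id_apply] at h4
  change P.Reg ((Matrix.of fun i j => D i (z j) : Matrix (Fin n) (Fin n) M).det ^ N * t)
  rw [h4]
  refine P.reg_mul ?_ h3
  have h9 : Ge P 0 (Matrix.of fun a c => D a (yP c) : Matrix (Fin n) (Fin n) M).det :=
    Pool.Agent.W619.PQ.ge_det P _ fun a b => hD a _ (hl.reg b)
  have h10 := h9.pow N
  rw [mul_zero] at h10
  exact h10

end ver

end Pool.Agent.T2h09.RF
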