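import Pool.Agent.T2h09.RF.Reg
import Pool.Agent.T2h09.ND.Top
import Pool.Agent.T2h09.ND.Fg

/-!
Descent of Kodaira dimensions for fibrations.
-/

set_option autoImplicit false
set_option linter.overlappingInstances false
set_option linter.unusedSectionVars false
set_option linter.unusedVariables false

open FF Pool.Agent.W602.GT Pool.Agent.W603.LV Pool.Agent.Y172 Pool.Agent.T2h09.ND

namespace Pool.Agent.T2h09.RF

/-- powers of algebraically independent elements are algebraically independent -/
theorem indep_pow {K : Type} [Field K] [Algebra ℂ K] {a : ℕ} {u : Fin a → K}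
    (hu : AlgebraicIndependent ℂ u) {m : ℕ} (hm : 0 < m) :
    AlgebraicIndependent ℂ fun i => u i ^ m := by
  classical
  obtain ⟨s, hs, hsi⟩ := exists_indep (Set.range fun i => u i ^ m) hu (fun j => by
    refine ⟨Polynomial.X ^ m - Polynomial.C ⟨u j ^ m, IntermediateField.subset_adjoin _ _ ⟨j, rfl⟩⟩,
      ?_, ?_⟩
    · exact Polynomial.X_pow_sub_C_ne_zero hm _
    · rw [map_sub, map_pow, Polynomial.aeval_X, Polynomial.aeval_C]
      exact sub_self _)
  choose σ hσ using hs
  have hinj : Function.Injective σ := by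
    intro i j hij
    apply hsi.injective
    rw [← hσ i, ← hσ j, hij]
  let e : Fin a ≃ Fin a := Equiv.ofBijective σ (Finite.injective_iff_bijective.1 hinj)
  have h1 : (fun i => u i ^ m) = s ∘ e.symm := by
    funext i
    rw [Function.comp_apply, ← hσ (e.symm i)]
    have h2 : σ (e.symm i) = i := e.apply_symm_apply i
    rw [h2]
  rw [h1]
  exact hsi.comp _ e.symm.injective

section

variable {k K : Type} [Field k] [Field K] [Algebra k K] {n : ℕ}

theorem pg_pow (y : Fin n → K) (m r : ℕ) (t : K) (D : Fin n → Derivation k K K) :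
    pg y (m * r) (t ^ r) D = pg y m t D ^ r := by
  unfold pg
  rw [mul_pow, pow_mul]

theorem pg_mul (y : Fin n → K) (m : ℕ) (c t : K) (D : Fin n → Derivation k K K) :
    pg y m (c * t) D = c * pg y m t D := by
  unfold pg
  ring

end

variable {E L M K : Type} [Field E] [Field L] [Field M] [Field K] [Algebra ℂ E] [Algebra ℂ L]
  [Algebra ℂ M] [Algebra ℂ K] [Algebra E M] [Algebra E K] [Algebra L M] [Algebra M K]
  [IsScalarTower ℂ E M] [IsScalarTower ℂ E K] [IsScalarTower ℂ L M] [IsScalarTower ℂ M K]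
  [IsScalarTower E M K] [FiniteDimensional L M] [FiniteDimensional M K]
  [Algebra.EssFiniteType ℂ K] {p q : ℕ}

/-- **Descent of the Kodaira dimension for fibrations.** -/
theorem kodGe_fib (hE : Algebra.trdeg ℂ E = p) (hK : Algebra.trdeg ℂ K = (p + (q + 1) : ℕ))
    (hcl : ∀ z : K, IsAlgebraic E z → z ∈ Set.range (algebraMap E K))
    (hκ : ¬ KodGe E K (q + 1) (fun _ => False) 1) (hZ : KodGe E M (q + 1) (fun _ => False) 0)
    (S : Set E) (hS : Submodule.span L (algebraMap E M '' S) = ⊤) {m a : ℕ} (hm : 0 < m)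
    (R : Fin (a + 1) → (Fin (p + (q + 1)) → Derivation ℂ K K) → K) (hR : ∀ j, IsPluri m (R j))
    (hreg : ∀ j, ∀ Q : Place ℂ K, Divisorial (p + (q + 1)) Q → ∀ s ∈ S,
      ∀ D : Fin (p + (q + 1)) → Derivation ℂ K K, (∀ i, DerReg Q (D i)) →
        Q.Reg (algebraMap E K s ^ (2 * m) * R j D) ∧ ∀ (P : Place ℂ E) (e : ℕ), Over Q P e →
          Ge Q (m * ((e : ℤ) - 1)) (algebraMap E K s ^ (2 * m) * R j D))
    (hind : ∃ D, R 0 D ≠ 0 ∧ AlgebraicIndependent ℂ fun j : Fin a => R j.succ D / R 0 D) :
    KodGe ℂ L (p + (q + 1)) (fun _ => False) a := by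
  classical
  have hessM : Algebra.EssFiniteType ℂ M := ess_below (K := K)
  have hessL : Algebra.EssFiniteType ℂ L := ess_below (K := M)
  have hM : Algebra.trdeg ℂ M = (p + (q + 1) : ℕ) := trdeg_below (K := K) hK
  have hL : Algebra.trdeg ℂ L = (p + (q + 1) : ℕ) := trdeg_below (K := M) hM
  have hessEM : Algebra.EssFiniteType E M := Algebra.EssFiniteType.of_comp ℂ E M
  have hessEK : Algebra.EssFiniteType E K := Algebra.EssFiniteType.of_comp ℂ E K
  have hcE : CharZero E := charZero_of_injective_algebraMap (algebraMap ℂ E).injective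
  have hcM : CharZero M := charZero_of_injective_algebraMap (algebraMap ℂ M).injective
  have hME : Algebra.trdeg E M = (q + 1 : ℕ) := by
    have h1 := _root_.trdeg_add_eq ℂ E (A := M)
    rw [hE, hM] at h1
    have h2 : Algebra.trdeg E M < Cardinal.aleph0 := by
      refine lt_of_le_of_lt ?_ (Cardinal.natCast_lt_aleph0 (n := p + (q + 1)))
      rw [← h1]
      exact self_le_add_left _ _
    obtain ⟨r, hr⟩ := Cardinal.lt_aleph0.1 h2
    rw [hr] at h1 ⊢
    have h3 : p + r = p + (q + 1) := by exact_mod_cast h1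
    have h4 : r = q + 1 := by omega
    rw [h4]
  have hKE : Algebra.trdeg E K = (q + 1 : ℕ) := trdeg_up (K := M) hME
  obtain ⟨x, hx⟩ := basis_of_trdeg hE
  obtain ⟨y, hy⟩ := basis_of_trdeg hME
  have hyK : IsTranscendenceBasis E (fun j => algebraMap M K (y j)) := hy.algebraMap_comp
  have hz := zz_basis hx hy
  have hzK := zz_basis hx hyK
  have hzz : (fun j => algebraMap M K (zz x y j)) = zz x (fun j => algebraMap M K (y j)) := by
    funext j
    induction j using Fin.addCases with
    | left j => rw [zz_left, zz_left, ← IsScalarTower.algebraMap_apply]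
    | right j => rw [zz_right, zz_right]
  obtain ⟨F, hF⟩ := dual_of hy
  obtain ⟨G, hG⟩ := dual_of hzK
  -- the form on the generic fibre of the image
  obtain ⟨m1, hm1, ω, hω, Dω, hDω, -⟩ := hZ
  obtain ⟨b, hb⟩ : ∃ b, b = ω 0 F := ⟨_, rfl⟩
  have hωb : ω 0 = pg y m1 b := by
    funext D
    rw [pluri_coord hy hF (hω 0).1 D, hb]
    rfl
  have hb0 : b ≠ 0 := by
    intro h0
    apply hDω
    rw [hωb, h0, pg, mul_zero]
  have hbreg : ∀ P : Place E M, Divisorial (q + 1) P → RegAt P (pg y m1 b) := by
    intro P hP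
    rw [← hωb]
    exact (hω 0).2.2 P hP not_false
  -- the coefficients of the forms
  obtain ⟨c, hc⟩ : ∃ c, c = fun j => R j G := ⟨_, rfl⟩
  have hRc : ∀ j, R j = pg (zz x fun j => algebraMap M K (y j)) m (c j) := by
    intro j
    funext D
    rw [pluri_coord hzK hG (hR j) D, hc]
    rfl
  -- a nonzero element of `S`
  obtain ⟨s0, hs0, hs00⟩ : ∃ s ∈ S, s ≠ 0 := by
    by_contra hcon
    push Not at hcon
    have h1 : Submodule.span L (algebraMap E M '' S) = ⊥ := by
      rw [Submodule.span_eq_bot]
      rintro _ ⟨s, hs, rfl⟩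
      rw [hcon s hs, map_zero]
    rw [h1] at hS
    have h2 : (1 : M) ∈ (⊥ : Submodule L M) := by
      rw [hS]
      trivial
    rw [Submodule.mem_bot] at h2
    exact one_ne_zero h2
  -- regularity on the generic fibre of `V`
  have hcreg : ∀ j, ∀ Q : Place E K, Divisorial (q + 1) Q →
      RegAt Q (pg (fun j => algebraMap M K (y j)) m (c j)) := by
    intro j Q hQ
    refine rel_reg hx hE hKE hyK Q hQ fun D hD => ?_
    have h1 := (hreg j (toC Q) ((div_iff Q hE (by omega)).2 hQ) s0 hs0 D hD).1
    rw [← hRc j]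
    have h2 : (toC Q).ord (algebraMap E K s0 ^ (2 * m)) = 0 := by
      rw [(toC Q).ord_pow]
      have : (toC Q).ord (algebraMap E K s0) = 0 := Q.ord_const hs00
      rw [this, mul_zero]
    have h3 : algebraMap E K s0 ^ (2 * m) ≠ 0 :=
      pow_ne_zero _ ((map_ne_zero (algebraMap E K)).2 hs00)
    rcases h1 with h1 | h1
    · left
      exact (mul_eq_zero.1 h1).resolve_left h3
    · by_cases h0 : R j D = 0
      · exact Or.inl h0
      · right
        rw [(toC Q).ord_mul h3 h0, h2, zero_add] at h1
        exact h1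
  have hN : 0 < m * m1 := Nat.mul_pos hm hm1
  have hex : ∀ j, ∃ g : E, c j ^ m1 = algebraMap E K g * algebraMap M K b ^ m := by
    intro j
    refine ratio_mem hκ hcl hyK hN (pow_ne_zero _ ((map_ne_zero (algebraMap M K)).2 hb0))
      (fun Q hQ D hD => ?_) fun Q hQ D hD => ?_
    · have h1 := pull_rel hME hy hbreg Q hQ D hD
      have h2 := Ge.pow (P := Q) (N := 0) h1 m
      rw [mul_zero, ← pg_pow, mul_comm m1 m] at h2
      exact h2
    · have h1 := hcreg j Q hQ D hD
      have h2 := Ge.pow (P := Q) (N := 0) h1 m1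
      rw [mul_zero, ← pg_pow] at h2
      exact h2
  choose g hg using hex
  obtain ⟨T, hT⟩ : ∃ T : Fin (a + 1) → M, T = fun j => algebraMap E M (g j) * b ^ m := ⟨_, rfl⟩
  have hTK : ∀ j, algebraMap M K (T j) = c j ^ m1 := by
    intro j
    rw [hg, hT]
    change algebraMap M K (algebraMap E M (g j) * b ^ m) = _
    rw [map_mul, map_pow, ← IsScalarTower.algebraMap_apply]
  -- the basis
  obtain ⟨ι, _, h, hh⟩ := exists_basis (algebraMap E M '' S) hS
  choose s hsS hs using hh
  -- the forms on `M`
  refine kodGe_descent hL h hN (fun j => pg (zz x y) (m * m1) (T j))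
    (fun j => pg_pluri _ _ _) (fun j P hP i => ?_) ?_
  · have hfun : (fun D => h i ^ (2 * (m * m1)) * pg (zz x y) (m * m1) (T j) D) =
        pg (k := ℂ) (zz x y) (m * m1) (algebraMap E M (s i) ^ (2 * (m * m1)) * T j) := by
      funext D
      rw [pg_mul, hs i]
    rw [hfun]
    by_cases htriv : ∀ f : E, P.ord (algebraMap E M f) = 0
    · obtain ⟨P', rfl⟩ := exists_toC P htriv
      have hP' := (div_iff P' hE (by omega)).1 hP
      refine hor_reg hx hME hy P' hP' fun D hD => ?_
      have h1 := Ge.pow (P := P') (N := 0) (hbreg P' hP' D hD) m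
      rw [mul_zero, ← pg_pow, mul_comm m1 m] at h1
      have h2 : algebraMap E M (s i) ^ (2 * (m * m1)) * T j =
          algebraMap E M (s i ^ (2 * (m * m1)) * g j) * b ^ m := by
        rw [hT, map_mul, map_pow]
        ring
      rw [h2, pg_mul]
      exact P'.reg_mul (P'.reg_const _) h1
    · push Not at htriv
      obtain ⟨e0, P0, hP0⟩ := exists_over P htriv
      obtain ⟨Sf, Tf, -, hTf, hsum⟩ := exists_places_over (K' := K) P
      obtain ⟨Q, hQS⟩ : Sf.Nonempty := by
        rw [Finset.nonempty_iff_ne_empty]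
        rintro rfl
        rw [Finset.sum_empty] at hsum
        have := Module.finrank_pos (R := M) (M := K)
        omega
      obtain ⟨e, hQ, -⟩ := hTf Q hQS
      have hQd : Divisorial (p + (q + 1)) Q := divisorial_up hQ hP
      have hQ0 : Over Q P0 (e * e0) := by
        refine ⟨Nat.mul_pos hQ.1 hP0.1, fun f => ?_⟩
        rw [IsScalarTower.algebraMap_apply E M K, hQ.2, hP0.2]
        push_cast
        ring
      refine ver_reg hM hz P hP Q e hQ fun D hD => ?_
      rw [hzz, map_mul, map_pow, ← IsScalarTower.algebraMap_apply, hTK]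
      have h1 := (hreg j Q hQd (s i) (hsS i) D hD).2 P0 _ hQ0
      have h2 := h1.pow m1
      have h3 : (algebraMap E K (s i) ^ (2 * m) * R j D) ^ m1 =
          pg (zz x fun j => algebraMap M K (y j)) (m * m1)
            (algebraMap E K (s i) ^ (2 * (m * m1)) * c j ^ m1) D := by
        rw [pg_mul, pg_pow, ← hRc j, mul_pow, ← pow_mul]
        ring_nf
      rw [h3] at h2
      refine h2.mono ?_
      push_cast
      have h4 : (1 : ℤ) ≤ e0 := by exact_mod_cast hP0.1
      have h5 : (0 : ℤ) ≤ e := Int.natCast_nonneg _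
      have h6 : (e : ℤ) - 1 ≤ e * e0 - 1 := by nlinarith
      have h7 : (0 : ℤ) ≤ (m : ℤ) * m1 := by positivity
      nlinarith [mul_le_mul_of_nonneg_left h6 h7]
  · obtain ⟨D, hD0, hDi⟩ := hind
    obtain ⟨Gz, hGz⟩ := dual_of hz
    have hc0 : c 0 ≠ 0 := by
      intro h0
      apply hD0
      rw [hRc, h0, pg, mul_zero]
    have hT0 : T 0 ≠ 0 := by
      intro h0
      have h1 := hTK 0
      rw [h0, map_zero] at h1
      exact pow_ne_zero _ hc0 h1.symm
    refine ⟨Gz, ?_, ?_⟩
    · rw [pg_self hGz]
      exact hT0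
    · simp only [pg_self hGz]
      refine AlgebraicIndependent.of_comp (IsScalarTower.toAlgHom ℂ M K) ?_
      have h1 : (fun j : Fin a => R j.succ D / R 0 D) = fun j => c j.succ / c 0 := by
        funext j
        rw [hRc, hRc]
        unfold pg
        rw [mul_div_mul_left]
        intro h0
        apply hD0
        rw [hRc]
        unfold pg
        rw [h0, zero_mul]
      rw [h1] at hDi
      have h2 := indep_pow hDi hm1
      have h3 : (IsScalarTower.toAlgHom ℂ M K) ∘ (fun j : Fin a => T j.succ / T 0) =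
          fun j => (c j.succ / c 0) ^ m1 := by
        funext j
        change algebraMap M K (T j.succ / T 0) = _
        rw [map_div₀, hTK, hTK, div_pow]
      rw [h3]
      exact h2

end Pool.Agent.T2h09.RF
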